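import Mathlib

set_option autoImplicit false

/-!
# The sum of `1 / p` over the primes in a residue class diverges
-/

namespace Pool.Agent.Density93

open ArithmeticFunction ArithmeticFunction.vonMangoldt Filter Topology

variable {q : ℕ} (a : ZMod q)

/-- The indicator of the primes in the residue class `a`. -/
noncomputable def ind (n : ℕ) : ℝ := by
  classical exact if n.Prime ∧ (n : ZMod q) = a then 1 else 0

theorem ind_nonneg (n : ℕ) : 0 ≤ ind a n := by
  unfold ind; split_ifs <;> norm_num

theorem ind_of_not_prime {n : ℕ} (h : ¬ n.Prime) : ind a n = 0 := by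
  unfold ind
  rw [if_neg (fun h' => h h'.1)]

theorem prime_part (n : ℕ) :
    (if n.Prime then residueClass a n else 0) = ind a n * Real.log n := by
  classical
  unfold ind
  by_cases hp : n.Prime
  · by_cases ha : (n : ZMod q) = a
    · have h1 : residueClass a n = vonMangoldt n :=
        Set.indicator_of_mem (show n ∈ {n : ℕ | (n : ZMod q) = a} from ha) _
      rw [if_pos hp, if_pos ⟨hp, ha⟩, h1, one_mul, vonMangoldt_apply_prime hp]
    · have h1 : residueClass a n = 0 :=
        Set.indicator_of_notMem (show n ∉ {n : ℕ | (n : ZMod q) = a} from ha) _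
      rw [if_pos hp, if_neg (fun h => ha h.2), h1, zero_mul]
  · rw [if_neg hp, if_neg (fun h => hp h.1), zero_mul]

theorem rpow_ineq {n : ℕ} (hn : 1 ≤ n) {u v : ℝ} :
    (v - u) * (Real.log n / (n : ℝ) ^ v) ≤ 1 / (n : ℝ) ^ u - 1 / (n : ℝ) ^ v := by
  have hn0 : (0 : ℝ) < n := by exact_mod_cast hn
  have hv : 0 < (n : ℝ) ^ v := Real.rpow_pos_of_pos hn0 v
  have h1 : (n : ℝ) ^ (v - u) = (n : ℝ) ^ v / (n : ℝ) ^ u := Real.rpow_sub hn0 v u
  have h2 : 1 + (v - u) * Real.log n ≤ (n : ℝ) ^ (v - u) := by
    rw [Real.rpow_def_of_pos hn0]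
    have := Real.add_one_le_exp (Real.log n * (v - u))
    linarith
  have h3 : 1 / (n : ℝ) ^ u = (n : ℝ) ^ (v - u) / (n : ℝ) ^ v := by
    rw [h1]; field_simp
  rw [h3, ← sub_div, mul_div_assoc']
  exact div_le_div_of_nonneg_right (by linarith) hv.le

variable {a}

/-- The sum of the reciprocals of the primes in an invertible residue class diverges. -/
theorem not_summable_inv [NeZero q] (ha : IsUnit a) : ¬ Summable fun n : ℕ => ind a n / n := by
  intro H
  -- summability facts
  have hind : ∀ x : ℝ, 1 ≤ x → Summable fun n : ℕ => ind a n * (1 / (n : ℝ) ^ x) := by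
    intro x hx
    refine Summable.of_nonneg_of_le (fun n => mul_nonneg (ind_nonneg a n) (by positivity))
      (fun n => ?_) H
    rcases n.eq_zero_or_pos with rfl | hn
    · simp [ind_of_not_prime a Nat.not_prime_zero]
    · rw [mul_one_div]
      refine div_le_div_of_nonneg_left (ind_nonneg a n) (by exact_mod_cast hn) ?_
      conv_lhs => rw [← Real.rpow_one n]
      exact Real.rpow_le_rpow_of_exponent_le (by exact_mod_cast hn) hx
  have hres : ∀ x : ℝ, 1 < x → Summable fun n : ℕ => residueClass a n / (n : ℝ) ^ x := by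
    intro x hx
    exact LSeries.summable_real_of_abscissaOfAbsConv_lt <|
        (abscissaOfAbsConv_residueClass_le_one a).trans_lt <| mod_cast hx
  have hnon := summable_residueClass_non_primes_div a
  set C₁ : ℝ := ∑' n : ℕ, (if n.Prime then 0 else residueClass a n) / (n : ℝ) with hC₁
  have hnonx : ∀ x : ℝ, 1 ≤ x →
      Summable fun n : ℕ => (if n.Prime then 0 else residueClass a n) / (n : ℝ) ^ x := by
    intro x hx
    refine Summable.of_nonneg_of_le (fun n => ?_) (fun n => ?_) hnon
    · split_ifs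
      · simp
      · exact div_nonneg (residueClass_nonneg a n) (by positivity)
    · rcases n.eq_zero_or_pos with rfl | hn
      · simp
      · refine div_le_div_of_nonneg_left ?_ (by exact_mod_cast hn) ?_
        · split_ifs
          · exact le_rfl
          · exact residueClass_nonneg a n
        conv_lhs => rw [← Real.rpow_one n]
        exact Real.rpow_le_rpow_of_exponent_le (by exact_mod_cast hn) hx
  have hpr : ∀ x : ℝ, 1 < x → Summable fun n : ℕ => ind a n * (Real.log n / (n : ℝ) ^ x) := by
    intro x hx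
    refine Summable.of_nonneg_of_le (fun n => ?_) (fun n => ?_) (hres x hx)
    · exact mul_nonneg (ind_nonneg a n) (div_nonneg (Real.log_natCast_nonneg n) (by positivity))
    · rw [← mul_div_assoc, ← prime_part a n]
      split_ifs
      · exact le_rfl
      · simp only [zero_div]
        exact div_nonneg (residueClass_nonneg a n) (by positivity)
  obtain ⟨C, hC⟩ := LSeries_residueClass_lower_bound ha
  -- lower bound for the prime part
  have hlow : ∀ x : ℝ, x ∈ Set.Ioc (1 : ℝ) 2 →
      (q.totient : ℝ)⁻¹ / (x - 1) - (C + C₁) ≤ ∑' n : ℕ, ind a n * (Real.log n / (n : ℝ) ^ x) := by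
    intro x hx
    have h1 := hC hx
    have h2 : ∑' n : ℕ, residueClass a n / (n : ℝ) ^ x =
        (∑' n : ℕ, ind a n * (Real.log n / (n : ℝ) ^ x)) +
          ∑' n : ℕ, (if n.Prime then 0 else residueClass a n) / (n : ℝ) ^ x := by
      rw [← (hpr x hx.1).tsum_add (hnonx x hx.1.le)]
      refine tsum_congr fun n => ?_
      rw [← mul_div_assoc, ← prime_part a n, ← add_div]
      split_ifs <;> simp
    have h3 : ∑' n : ℕ, (if n.Prime then 0 else residueClass a n) / (n : ℝ) ^ x ≤ C₁ := by
      refine Summable.tsum_le_tsum (fun n => ?_) (hnonx x hx.1.le) hnon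
      rcases n.eq_zero_or_pos with rfl | hn
      · simp
      · refine div_le_div_of_nonneg_left ?_ (by exact_mod_cast hn) ?_
        · split_ifs
          · exact le_rfl
          · exact residueClass_nonneg a n
        conv_lhs => rw [← Real.rpow_one n]
        exact Real.rpow_le_rpow_of_exponent_le (by exact_mod_cast hn) hx.1.le
    rw [h2] at h1
    linarith
  let g : ℝ → ℝ := fun x => ∑' n : ℕ, ind a n * (1 / (n : ℝ) ^ x)
  have hg : ∀ u v : ℝ, 1 ≤ u → u < v → v ∈ Set.Ioc (1 : ℝ) 2 →
      (v - u) * ((q.totient : ℝ)⁻¹ / (v - 1) - (C + C₁)) ≤ g u - g v := by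
    intro u v hu huv hv
    refine (mul_le_mul_of_nonneg_left (hlow v hv) (by linarith)).trans ?_
    rw [← tsum_mul_left]
    change _ ≤ (∑' n : ℕ, ind a n * (1 / (n : ℝ) ^ u)) - ∑' n : ℕ, ind a n * (1 / (n : ℝ) ^ v)
    rw [← (hind u hu).tsum_sub (hind v hv.1.le)]
    refine Summable.tsum_le_tsum (fun n => ?_) ((hpr v hv.1).mul_left _)
      ((hind u hu).sub (hind v hv.1.le))
    rcases n.eq_zero_or_pos with rfl | hn
    · simp [ind_of_not_prime a Nat.not_prime_zero]
    · have := mul_le_mul_of_nonneg_left (rpow_ineq (u := u) (v := v) hn) (ind_nonneg a n)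
      rw [mul_sub] at this
      linarith
  -- telescoping along `1 + 2 ^ (-j)`
  set c : ℝ := (q.totient : ℝ)⁻¹ with hc
  have hc0 : 0 < c := inv_pos.mpr (mod_cast q.totient.pos_of_neZero)
  set K : ℝ := |C + C₁| with hK
  have hstep : ∀ j : ℕ, g (1 + (1 / 2) ^ j) + (c / 2 - K * (1 / 2) ^ (j + 1)) ≤
      g (1 + (1 / 2) ^ (j + 1)) := by
    intro j
    have hj : (0 : ℝ) < (1 / 2) ^ j := by positivity
    have hj1 : ((1 : ℝ) / 2) ^ j ≤ 1 := pow_le_one₀ (by norm_num) (by norm_num)
    have h1 := hg (1 + (1 / 2) ^ (j + 1)) (1 + (1 / 2) ^ j)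
      (by have : (0 : ℝ) < (1 / 2) ^ (j + 1) := by positivity
          linarith)
      (by rw [pow_succ]; linarith) ⟨by linarith, by linarith⟩
    have h2 : (1 : ℝ) + (1 / 2) ^ j - (1 + (1 / 2) ^ (j + 1)) = (1 / 2) ^ (j + 1) := by
      rw [pow_succ]; ring
    have h3 : (1 : ℝ) + (1 / 2) ^ j - 1 = (1 / 2) ^ j := by ring
    rw [h2, h3, mul_sub] at h1
    have h4 : ((1 : ℝ) / 2) ^ (j + 1) * (c / (1 / 2) ^ j) = c / 2 := by
      rw [pow_succ]; field_simp
    rw [h4] at h1
    have h5 : ((1 : ℝ) / 2) ^ (j + 1) * (C + C₁) ≤ K * (1 / 2) ^ (j + 1) := by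
      rw [mul_comm]
      exact mul_le_mul_of_nonneg_right (le_abs_self _) (by positivity)
    linarith
  have hsum : ∀ J : ℕ, g 2 + J * (c / 2) - K * (1 - (1 / 2) ^ J) ≤ g (1 + (1 / 2) ^ J) := by
    intro J
    induction J with
    | zero => norm_num
    | succ J ih =>
      have h1 := hstep J
      have h2 : ((1 : ℝ) / 2) ^ (J + 1) = (1 / 2) ^ J / 2 := by rw [pow_succ]; ring
      push_cast
      rw [h2] at h1 ⊢
      linarith
  have hbd : ∀ x : ℝ, 1 ≤ x → g x ≤ ∑' n : ℕ, ind a n / n := by
    intro x hx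
    refine Summable.tsum_le_tsum (fun n => ?_) (hind x hx) H
    rcases n.eq_zero_or_pos with rfl | hn
    · simp [ind_of_not_prime a Nat.not_prime_zero]
    · rw [mul_one_div]
      refine div_le_div_of_nonneg_left (ind_nonneg a n) (by exact_mod_cast hn) ?_
      conv_lhs => rw [← Real.rpow_one n]
      exact Real.rpow_le_rpow_of_exponent_le (by exact_mod_cast hn) hx
  have hg2 : 0 ≤ g 2 := tsum_nonneg fun n => mul_nonneg (ind_nonneg a n) (by positivity)
  obtain ⟨J, hJ⟩ := exists_nat_gt ((∑' n : ℕ, ind a n / n + K) / (c / 2))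
  rw [div_lt_iff₀ (by positivity)] at hJ
  have h1 := hsum J
  have h2 := hbd (1 + (1 / 2) ^ J) (by have : (0 : ℝ) < (1 / 2) ^ J := by positivity
                                       linarith)
  have h3 : K * (1 - (1 / 2) ^ J) ≤ K := by
    have : (0 : ℝ) < (1 / 2) ^ J := by positivity
    have hK0 : 0 ≤ K := abs_nonneg _
    nlinarith
  linarith

end Pool.Agent.Density93
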