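import Pool.Agent.Lib_helper93.Density.ResiduePrimes

set_option autoImplicit false

/-!
# Integers `A k + B` without prime factors in a residue class have density zero
-/

namespace Pool.Agent.Density93

open Filter Topology

variable {q : ℕ} {a : ZMod q}

/-- A finite set of primes in the class, coprime to `A`, with large reciprocal sum. -/
theorem exists_finset [NeZero q] (ha : IsUnit a) (A : ℕ) (L : ℝ) :
    ∃ F : Finset ℕ, (∀ p ∈ F, p.Prime ∧ (p : ZMod q) = a ∧ A < p) ∧ L ≤ ∑ p ∈ F, (1 : ℝ) / p := by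
  classical
  have h1 := not_summable_inv ha
  rw [not_summable_iff_tendsto_nat_atTop_of_nonneg
    (fun n => div_nonneg (ind_nonneg a n) (Nat.cast_nonneg n))] at h1
  obtain ⟨n, hn1, hn⟩ := (h1.eventually_ge_atTop
    (L + ∑ i ∈ Finset.range (A + 1), ind a i / (i : ℝ))).and (eventually_ge_atTop (A + 1)) |>.exists
  refine ⟨(Finset.Ico (A + 1) n).filter (fun p => p.Prime ∧ (p : ZMod q) = a), ?_, ?_⟩
  · intro p hp
    rw [Finset.mem_filter, Finset.mem_Ico] at hp
    exact ⟨hp.2.1, hp.2.2, by omega⟩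
  · rw [Finset.sum_filter]
    have h2 : ∑ i ∈ Finset.range n, ind a i / (i : ℝ) =
        ∑ i ∈ Finset.range (A + 1), ind a i / (i : ℝ) + ∑ i ∈ Finset.Ico (A + 1) n, ind a i / (i : ℝ) :=
      (Finset.sum_range_add_sum_Ico _ hn).symm
    have h3 : ∑ i ∈ Finset.Ico (A + 1) n, ind a i / (i : ℝ) =
        ∑ p ∈ Finset.Ico (A + 1) n, if p.Prime ∧ (p : ZMod q) = a then (1 : ℝ) / p else 0 := by
      refine Finset.sum_congr rfl fun p _ => ?_
      unfold ind
      split_ifs <;> simp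
    rw [← h3]
    linarith

theorem totient_prod_le {F : Finset ℕ} (hF : ∀ p ∈ F, p.Prime) :
    ((Nat.totient (∏ p ∈ F, p) : ℕ) : ℝ) ≤ (∏ p ∈ F, p : ℕ) * Real.exp (-∑ p ∈ F, (1 : ℝ) / p) := by
  classical
  have h1 := Nat.totient_eq_mul_prod_factors (∏ p ∈ F, p)
  rw [Nat.primeFactors_prod hF] at h1
  have h2 : ((Nat.totient (∏ p ∈ F, p) : ℕ) : ℝ) =
      (∏ p ∈ F, p : ℕ) * ∏ p ∈ F, (1 - (p : ℝ)⁻¹) := by
    have := congrArg (fun x : ℚ => (x : ℝ)) h1
    push_cast at this ⊢
    exact this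
  rw [h2, ← Finset.sum_neg_distrib, Real.exp_sum]
  refine mul_le_mul_of_nonneg_left ?_ (Nat.cast_nonneg _)
  refine Finset.prod_le_prod (fun p hp => ?_) (fun p hp => ?_)
  · have : (1 : ℝ) ≤ p := by exact_mod_cast (hF p hp).one_le
    have := inv_le_one_of_one_le₀ this
    linarith
  · rw [one_div]
    exact Real.one_sub_le_exp_neg _

/-- The integers `k` such that `A k + B` has no prime factor in the class `a` have natural
density zero. -/
theorem density_zero [NeZero q] (ha : IsUnit a) (A B : ℕ) (hA : 0 < A) {ε : ℝ} (hε : 0 < ε) :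
    ∃ X₀ : ℕ, ∀ X : ℕ, X₀ ≤ X →
      ∀ S : Finset ℕ, S ⊆ Finset.range X →
        (∀ k ∈ S, ∀ p : ℕ, p.Prime → (p : ZMod q) = a → ¬ p ∣ A * k + B) →
        (S.card : ℝ) ≤ ε * X := by
  classical
  obtain ⟨F, hF, hL⟩ := exists_finset ha A (Real.log (2 / ε))
  set P : ℕ := ∏ p ∈ F, p with hP
  have hPpos : 0 < P := Finset.prod_pos fun p hp => (hF p hp).1.pos
  have hcop : Nat.Coprime A P := by
    refine Nat.Coprime.prod_right fun p hp => ?_
    rw [Nat.coprime_comm, (hF p hp).1.coprime_iff_not_dvd]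
    intro h
    have := Nat.le_of_dvd hA h
    have := (hF p hp).2.2
    omega
  -- the shift
  obtain ⟨c, hc⟩ : ∃ c : ℕ, A * c ≡ B [MOD P] := by
    have : NeZero P := ⟨hPpos.ne'⟩
    refine ⟨((A : ZMod P)⁻¹ * (B : ZMod P)).val, ?_⟩
    rw [← ZMod.natCast_eq_natCast_iff]
    push_cast
    rw [ZMod.natCast_val, ZMod.cast_id', id_eq, ← mul_assoc, ZMod.coe_mul_inv_eq_one A hcop,
      one_mul]
  have htot : ((Nat.totient P : ℕ) : ℝ) ≤ P * (ε / 2) := by
    refine (totient_prod_le (fun p hp => (hF p hp).1)).trans ?_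
    refine mul_le_mul_of_nonneg_left ?_ (Nat.cast_nonneg _)
    have h1 : Real.exp (-∑ p ∈ F, (1 : ℝ) / p) ≤ Real.exp (-Real.log (2 / ε)) :=
      Real.exp_le_exp.mpr (by linarith)
    refine h1.trans ?_
    rw [Real.exp_neg, Real.exp_log (by positivity), inv_div]
  refine ⟨P, fun X hX S hS hSp => ?_⟩
  have hcard : S.card ≤ ((Finset.Ico c (c + X)).filter (fun x => P.Coprime x)).card := by
    refine Finset.card_le_card_of_injOn (fun k => c + k) ?_ ?_
    · intro k hk
      have hk' := Finset.mem_range.mp (hS hk)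
      simp only [Finset.coe_filter, Finset.mem_Ico, Set.mem_ofPred_eq]
      refine ⟨⟨by omega, by omega⟩, ?_⟩
      refine Nat.Coprime.prod_left fun p hp => ?_
      rw [(hF p hp).1.coprime_iff_not_dvd]
      intro hdvd
      apply hSp k hk p (hF p hp).1 (hF p hp).2.1
      have hpP : p ∣ P := Finset.dvd_prod_of_mem _ hp
      have h1 : A * k + A * c ≡ A * k + B [MOD p] := (hc.of_dvd hpP).add_left _
      rw [← mul_add] at h1
      have h2 : p ∣ A * (k + c) := Dvd.dvd.mul_left (by rwa [add_comm]) A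
      exact (Nat.modEq_zero_iff_dvd.mp (h1.symm.trans (Nat.modEq_zero_iff_dvd.mpr h2)))
    · intro x _ y _ h
      simpa using h
  have h2 := hcard.trans (Nat.Ico_filter_coprime_le c X hPpos.ne')
  have h3 : (S.card : ℝ) ≤ (Nat.totient P : ℝ) * ((X : ℝ) / P + 1) := by
    refine (show (S.card : ℝ) ≤ ((Nat.totient P * (X / P + 1) : ℕ) : ℝ) by exact_mod_cast h2).trans ?_
    push_cast
    refine mul_le_mul_of_nonneg_left ?_ (Nat.cast_nonneg _)
    have := @Nat.cast_div_le ℝ _ _ _ X P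
    linarith
  have hP0 : (0 : ℝ) < P := by exact_mod_cast hPpos
  have h4 : (S.card : ℝ) ≤ (P * (ε / 2)) * ((X : ℝ) / P + 1) :=
    h3.trans (mul_le_mul_of_nonneg_right htot (by positivity))
  have h5 : (P * (ε / 2)) * ((X : ℝ) / P + 1) = ε / 2 * X + P * ε / 2 := by
    field_simp
  have h6 : (P : ℝ) ≤ X := by exact_mod_cast hX
  nlinarith

end Pool.Agent.Density93
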